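import Mathlib
import Pool.Agent.Y1.SC.Defs
import Pool.Agent.W484.HS.Num

/-!
# The standard conjecture of Hodge type for the products of unrelated varieties with abelian varieties:
definitions
-/

set_option autoImplicit false

open CategoryTheory AlgebraicGeometry

namespace Pool.Agent.V5helper98.HH

open Polynomial Pool.Agent.H914 Pool.Agent.H914.VarClass Pool.Agent.H914.VarClass.Obj
  Pool.Agent.H914.WeilCohomology Pool.Agent.H281R3.HT Pool.Agent.W552 Pool.Agent.W484.HS
  Pool.Agent.TH132.A Pool.Agent.Y1.CT Pool.Agent.Y1.SC

/-- `HodgeTimes K q F`: the following holds for every algebraically closed field `k`, every class `𝒱`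
of smooth proper varieties over `k` closed under products, every Weil cohomology `W` with
algebraically closed coefficient field, every polarized `A` with an endomorphism `f` which is the
Frobenius endomorphism, relative to the field with `q ^ s` elements, of an abelian variety of type `F`
(`IsAbelianFrobenius`), and every `Z`, with a divisor and with a Frobenius endomorphism `g` relative
to the same field whose eigenvalues are unrelated to the fields `K i` (`UnrelatedEigen`):

* homological and numerical equivalence coincide on `A`; they coincide on `A × Z` if and only if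
  they coincide on `Z`;
* if `A` and its divisor satisfy hard Lefschetz and the standard conjecture of Hodge type, and `Z`
  and its divisor satisfy hard Lefschetz, then `A × Z` (with the sum of the pull-backs of the
  divisors) satisfies the standard conjecture of Hodge type if and only if `Z` does. -/
def HodgeTimes {I : Type} (K : I → Type) [∀ i, Field (K i)] (q : ℕ) (F : I → ℤ[X]) : Prop :=
  ∀ (k : Type) [Field k] [IsAlgClosed k] (𝒱 : VarClass k) (ops : CycleOps 𝒱)
    (W : WeilCohomology.{0, 0} ops) [IsAlgClosed W.K] (s : ℕ), 0 < s →
    ∀ (A Z : Polarized 𝒱) (f : A.X ⟶ A.X) (g : Z.X ⟶ Z.X),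
      IsAbelianFrobenius W q s F A f → UnrelatedEigen K (W.map g) →
      FrobeniusOnCycles W (A.X.prod Z.X) (pairMap f g) (q ^ s) →
      HomEqNum W A.X ∧ (HomEqNum W (A.X.prod Z.X) ↔ HomEqNum W Z.X) ∧
      (HardLefschetz W A.X A.D → HodgeType W A.X A.D → Z.X.IsCyc 1 Z.D →
        HardLefschetz W Z.X Z.D →
          (HodgeType W (A.prod ops Z).X (A.prod ops Z).D ↔ HodgeType W Z.X Z.D))

end Pool.Agent.V5helper98.HH
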