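import Mathlib
import Pool.Agent.Y1.SC.Main
import Pool.Agent.TH132.A.HMain
import Pool.Agent.TH132.A.Num
import Pool.Agent.V5helper98.HH.Defs

/-!
# The standard conjecture of Hodge type for the products of unrelated varieties with abelian varieties
-/

set_option autoImplicit false
set_option linter.unusedSectionVars false
set_option linter.unusedVariables false

open CategoryTheory AlgebraicGeometry

universe u v

namespace Pool.Agent.V5helper98.HH

open Module Polynomial Pool.Agent.H914 Pool.Agent.H914.VarClass Pool.Agent.H914.VarClass.Obj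
  Pool.Agent.H914.WeilCohomology Pool.Agent.H281R3.HT Pool.Agent.W552 Pool.Agent.W484.HS
  Pool.Agent.TH132.A Pool.Agent.Y1.CT Pool.Agent.Y1.SC

theorem hodgeTimes_of {I : Type} {K : I → Type} [∀ i, Field (K i)]
    {q : ℕ} (hq : 1 < q) {F : I → ℤ[X]} {R : ℂ → Prop} (hR : NoRel F q R)
    {k : Type u} [Field k] {𝒱 : VarClass k} {ops : CycleOps 𝒱}
    {W : WeilCohomology.{u, v} ops} [IsAlgClosed W.K] {s : ℕ} (hs : 0 < s)
    {A Z : Polarized 𝒱} {f : A.X ⟶ A.X} {g : Z.X ⟶ Z.X}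
    (hA : IsAbelianFrobenius W q s F A f)
    (hZ : ∃ χ : ℚ[X], χ ≠ 0 ∧ (∀ (ρ : W.K) (c : W.H Z.X), c ≠ 0 → W.map g c = ρ • c →
      aeval ρ χ = 0) ∧ ∀ ρ : ℂ, aeval ρ χ = 0 → R ρ)
    (hF : FrobeniusOnCycles W (A.X.prod Z.X) (pairMap f g) (q ^ s)) :
    HomEqNum W A.X ∧ (HomEqNum W (A.X.prod Z.X) ↔ HomEqNum W Z.X) ∧
      (HardLefschetz W A.X A.D → HodgeType W A.X A.D → Z.X.IsCyc 1 Z.D →
        HardLefschetz W Z.X Z.D →
          (HodgeType W (A.prod ops Z).X (A.prod ops Z).D ↔ HodgeType W Z.X Z.D)) := by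
  have hnum : HomEqNum W A.X := homEqNum_abelian hq hR hs hA
  have hmix : ∀ z, AS W (A.X.prod Z.X) z → z ∈ mixSpan W A.X Z.X := by
    intro z hz
    refine AS.ind (p := fun z => z ∈ mixSpan W A.X Z.X) ?_
      (fun x y hx hy => Submodule.add_mem _ hx hy) hz
    rintro c _ ⟨z, hz, rfl⟩
    exact alg_mem_mix hq hR hs hA hZ hF c z hz
  have hS : ∀ z, AS W (A.X.prod Z.X) z → z ∈ tens W A.X Z.X := fun z hz =>
    mem_tens hnum hz (hmix z hz)
  have h1 : (1 : W.H A.X) ≠ 0 := one_ne_of_deg hA.divisor hA.degree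
  refine ⟨hnum, homEqNum_prod_iff hS hnum h1, fun hLA hHA hB hLZ => ?_⟩
  obtain ⟨l, F₁, hl⟩ := exists_lw hA.divisor hLA
  obtain ⟨m, G, hm⟩ := exists_lw hB hLZ
  have hst : Stable W A.X l := stable_of_lefschetzA F₁.hD F₁.sl2
    (lefschetzA_of_D F₁.hD F₁.hl hnum)
  exact ⟨fun h => hodge_of_prod F₁ G hHA h1 h, fun h => hodge_prod_of hS F₁ hl F₁.hl hst hHA
    G hm h⟩

theorem hodgeTimes {I : Type} {K : I → Type} [∀ i, Field (K i)] {q : ℕ} (hq : 1 < q)
    {F : I → ℤ[X]} (hR : NoRel F q (Unrelated K)) : HodgeTimes K q F := by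
  intro k _ _ 𝒱 ops W _ s hs A Z f g hA hZ hF
  exact hodgeTimes_of (K := K) hq hR hs hA hZ hF

end Pool.Agent.V5helper98.HH
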